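import Pool.Agent.Lib.MP_3ee548_nt.RS.Iface

/-!
# Module HB (MP_3ee548_nt, RS board): size plus variation of `H (m/N) e(-c/m)` on a dyadic block.
-/

set_option autoImplicit false

open scoped BigOperators
open Classical

namespace Pool.Agent.Lib.MP_3ee548_nt.RS.H14

open Pool.Agent.Lib.MP_3ee548_nt.RS

theorem norm_e (x : ℝ) : ‖e x‖ = 1 := by
  unfold e
  exact Complex.norm_exp_ofReal_mul_I _

theorem norm_e_sub (a b : ℝ) : ‖e a - e b‖ ≤ 2 * Real.pi * |a - b| := by
  have h : e a - e b = e b * (Complex.exp (Complex.I * ((2 * Real.pi * (a - b) : ℝ) : ℂ)) - 1) := by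
    unfold e
    rw [mul_sub, ← Complex.exp_add, mul_one]
    congr 2
    push_cast
    ring
  rw [h, norm_mul, norm_e, one_mul]
  refine (Real.norm_exp_I_mul_ofReal_sub_one_le).trans ?_
  rw [Real.norm_eq_abs, abs_mul, abs_of_pos (by positivity : (0 : ℝ) < 2 * Real.pi)]

theorem H_pos {z : ℝ} (hz : 0 < z) : 0 < H z := by
  unfold H h0
  positivity

theorem H_eq {z : ℝ} (hz : 0 < z) :
    H z = Real.exp (-(3 / 2) * Real.log z - Real.pi * (z + 1 / z)) := by
  unfold H h0
  rw [Real.rpow_def_of_pos hz, ← Real.exp_add]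
  congr 1
  ring

/-- upper bound of `H` on the block. -/
noncomputable def Bd (y : ℝ) : ℝ := y ^ (-(3 / 2) : ℝ) * Real.exp (-Real.pi * (y + 1 / (2 * y)))

theorem Bd_pos {y : ℝ} (hy : 0 < y) : 0 < Bd y := by
  unfold Bd
  positivity

theorem H_le {y z : ℝ} (hy : 0 < y) (h1 : y ≤ z) (h2 : z ≤ 2 * y) : H z ≤ Bd y := by
  have hz : 0 < z := lt_of_lt_of_le hy h1
  unfold H Bd h0
  have h3 : z ^ (-(3 / 2) : ℝ) ≤ y ^ (-(3 / 2) : ℝ) :=
    Real.rpow_le_rpow_of_nonpos hy h1 (by norm_num)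
  have h4 : Real.exp (-Real.pi * (z + 1 / z)) ≤ Real.exp (-Real.pi * (y + 1 / (2 * y))) := by
    apply Real.exp_le_exp.2
    have h5 : 1 / (2 * y) ≤ 1 / z := one_div_le_one_div_of_le hz h2
    have h6 := Real.pi_pos
    nlinarith
  exact mul_le_mul h3 h4 (Real.exp_pos _).le (by positivity)

theorem abs_exp_sub_le {a b B : ℝ} (ha : Real.exp a ≤ B) (hb : Real.exp b ≤ B) :
    |Real.exp a - Real.exp b| ≤ B * |a - b| := by
  wlog hab : b ≤ a generalizing a b
  · rw [abs_sub_comm (Real.exp a), abs_sub_comm a]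
    exact this hb ha (le_of_not_ge hab)
  · have h1 : Real.exp b = Real.exp a * Real.exp (b - a) := by
      rw [← Real.exp_add]
      congr 1
      ring
    have h2 := Real.add_one_le_exp (b - a)
    have h3 : Real.exp b ≤ Real.exp a := Real.exp_le_exp.2 hab
    rw [abs_of_nonneg (by linarith), abs_of_nonneg (by linarith)]
    have h4 : Real.exp a - Real.exp b ≤ Real.exp a * (a - b) := by
      rw [h1]
      nlinarith [Real.exp_pos a]
    exact h4.trans (mul_le_mul_of_nonneg_right ha (by linarith))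

theorem H_sub {y z w B : ℝ} (hy : 0 < y) (h1 : y ≤ z) (h2 : z ≤ w) (hz : H z ≤ B) (hw : H w ≤ B) :
    |H w - H z| ≤ B * ((w - z) * (3 / (2 * y) + Real.pi + Real.pi / y ^ 2)) := by
  have hz0 : 0 < z := lt_of_lt_of_le hy h1
  have hw0 : 0 < w := lt_of_lt_of_le hz0 h2
  have hpi := Real.pi_pos
  have hB : 0 ≤ B := (H_pos hz0).le.trans hz
  rw [H_eq hz0] at hz ⊢
  rw [H_eq hw0] at hw ⊢
  refine (abs_exp_sub_le hw hz).trans (mul_le_mul_of_nonneg_left ?_ hB)
  have hlog1 : Real.log w - Real.log z ≤ (w - z) / y := by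
    rw [← Real.log_div hw0.ne' hz0.ne']
    have h3 := Real.log_le_sub_one_of_pos (div_pos hw0 hz0)
    have h4 : w / z - 1 = (w - z) / z := by
      field_simp
    rw [h4] at h3
    refine h3.trans ?_
    exact div_le_div_of_nonneg_left (by linarith) hy h1
  have hlog2 : 0 ≤ Real.log w - Real.log z := sub_nonneg.2 (Real.log_le_log hz0 h2)
  have hinv1 : 1 / z - 1 / w ≤ (w - z) / y ^ 2 := by
    have h5 : 1 / z - 1 / w = (w - z) / (z * w) := by
      field_simp
    rw [h5]
    refine div_le_div_of_nonneg_left (by linarith) (by positivity) ?_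
    nlinarith
  have hinv2 : 0 ≤ 1 / z - 1 / w := sub_nonneg.2 (one_div_le_one_div_of_le hz0 h2)
  have e1 : (w - z) * (3 / (2 * y) + Real.pi + Real.pi / y ^ 2)
      = 3 / 2 * ((w - z) / y) + Real.pi * (w - z) + Real.pi * ((w - z) / y ^ 2) := by
    field_simp
  rw [e1]
  have hwz : 0 ≤ w - z := by linarith
  rw [abs_le]
  constructor <;> nlinarith [mul_le_mul_of_nonneg_left hinv1 hpi.le, mul_nonneg hpi.le hinv2,
    mul_nonneg hpi.le hwz]

theorem final_bound {y : ℝ} (hy : 0 < y) :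
    Bd y * (1 + (3 / 2 + Real.pi * y + Real.pi / y + 2 * Real.pi))
      ≤ 1000 * Real.exp (-(y + 1 / y)) := by
  have hpi3 := Real.pi_gt_three
  have hpi4 := Real.pi_lt_d2
  set u := 1 / y with hu
  have hu0 : 0 < u := by positivity
  have hrp : y ^ (-(3 / 2) : ℝ) ≤ 1 + u ^ 2 := by
    rcases le_or_gt 1 y with h | h
    · have h1 : y ^ (-(3 / 2) : ℝ) ≤ 1 := Real.rpow_le_one_of_one_le_of_nonpos h (by norm_num)
      nlinarith [sq_nonneg u]
    · have h1 : y ^ (-(3 / 2) : ℝ) ≤ y ^ (-2 : ℝ) :=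
        Real.rpow_le_rpow_of_exponent_ge hy h.le (by norm_num)
      have h2 : y ^ (-2 : ℝ) = u ^ 2 := by
        rw [Real.rpow_neg hy.le, hu]
        norm_num
      linarith
  have hexp : Real.exp (-Real.pi * (y + 1 / (2 * y)))
      = Real.exp (-(y + u)) * Real.exp (-((Real.pi - 1) * y + (Real.pi / 2 - 1) * u)) := by
    rw [← Real.exp_add]
    congr 1
    rw [hu]
    field_simp
    ring
  set E := Real.exp ((Real.pi - 1) * y + (Real.pi / 2 - 1) * u) with hE
  have hE0 : 0 < E := Real.exp_pos _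
  have hEy : y ≤ E := by
    have h1 := Real.add_one_le_exp y
    have h2 : Real.exp y ≤ E := by
      apply Real.exp_le_exp.2
      nlinarith
    linarith
  have hEu : Real.exp (u / 2) ≤ E := by
    apply Real.exp_le_exp.2
    nlinarith
  have hE1 : 1 ≤ E := by
    refine le_trans ?_ hEu
    exact Real.one_le_exp (by positivity)
  have hpow : ∀ k : ℕ, (u / 2) ^ k / (k.factorial : ℝ) ≤ E := fun k =>
    (Real.pow_div_factorial_le_exp (u / 2) (by positivity) k).trans hEu
  have hu1 : u ≤ 2 * E := by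
    have := hpow 1
    simp at this
    linarith
  have hu2 : u ^ 2 ≤ 8 * E := by
    have := hpow 2
    simp [Nat.factorial] at this
    nlinarith
  have hu3 : u ^ 3 ≤ 48 * E := by
    have := hpow 3
    simp [Nat.factorial] at this
    nlinarith
  have hyu : y * u = 1 := by
    rw [hu]
    field_simp
  have hpoly : (1 + u ^ 2) * (1 + (3 / 2 + Real.pi * y + Real.pi / y + 2 * Real.pi)) ≤ 1000 * E := by
    have h1 : Real.pi / y = Real.pi * u := by
      rw [hu]
      ring
    rw [h1]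
    have h2 : (1 + u ^ 2) * (1 + (3 / 2 + Real.pi * y + Real.pi * u + 2 * Real.pi))
        = (5 / 2 + 2 * Real.pi) + Real.pi * y + Real.pi * u + (5 / 2 + 2 * Real.pi) * u ^ 2
          + Real.pi * (y * u) * u + Real.pi * u ^ 3 := by
      ring
    rw [h2, hyu]
    have p1 : Real.pi * y ≤ 3.15 * E := by nlinarith
    have p2 : Real.pi * u ≤ 3.15 * (2 * E) := by nlinarith
    have p3 : (5 / 2 + 2 * Real.pi) * u ^ 2 ≤ 8.8 * (8 * E) := by nlinarith [sq_nonneg u]
    have p4 : Real.pi * u ^ 3 ≤ 3.15 * (48 * E) := by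
      have : 0 ≤ u ^ 3 := by positivity
      nlinarith
    have p5 : Real.pi * 1 * u ≤ 3.15 * (2 * E) := by linarith
    nlinarith
  unfold Bd
  rw [hexp, Real.exp_neg ((Real.pi - 1) * y + (Real.pi / 2 - 1) * u), ← hE]
  have hfac : 0 ≤ 1 + (3 / 2 + Real.pi * y + Real.pi / y + 2 * Real.pi) := by positivity
  calc y ^ (-(3 / 2) : ℝ) * (Real.exp (-(y + u)) * E⁻¹)
        * (1 + (3 / 2 + Real.pi * y + Real.pi / y + 2 * Real.pi))
      = (Real.exp (-(y + u)) * E⁻¹) * (y ^ (-(3 / 2) : ℝ)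
        * (1 + (3 / 2 + Real.pi * y + Real.pi / y + 2 * Real.pi))) := by ring
    _ ≤ (Real.exp (-(y + u)) * E⁻¹) * ((1 + u ^ 2)
        * (1 + (3 / 2 + Real.pi * y + Real.pi / y + 2 * Real.pi))) := by
        apply mul_le_mul_of_nonneg_left _ (by positivity)
        exact mul_le_mul_of_nonneg_right hrp hfac
    _ ≤ (Real.exp (-(y + u)) * E⁻¹) * (1000 * E) := by
        apply mul_le_mul_of_nonneg_left hpoly (by positivity)
    _ = 1000 * Real.exp (-(y + u)) := by
        field_simp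

theorem hb : HbStatement := by
  refine ⟨1000, by norm_num, ?_⟩
  intro N c j hN hc0 hc1
  have hpi := Real.pi_pos
  have hN0 : 0 < N := by linarith
  set K : ℕ := 2 ^ j with hK
  have hKpos : 0 < K := by positivity
  have hK1 : (1 : ℝ) ≤ (K : ℝ) := by exact_mod_cast hKpos
  have hKr : ((K : ℕ) : ℝ) = (2 : ℝ) ^ j := by rw [hK]; push_cast; rfl
  have h2K : 2 ^ (j + 1) = 2 * K := by rw [hK, pow_succ]; ring
  set y : ℝ := (K : ℝ) / N with hy
  have hy0 : 0 < y := by positivity
  have hrange : ∀ m : ℕ, K ≤ m → m ≤ 2 * K → y ≤ (m : ℝ) / N ∧ (m : ℝ) / N ≤ 2 * y := by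
    intro m h1 h2
    have h1' : (K : ℝ) ≤ m := by exact_mod_cast h1
    have h2' : (m : ℝ) ≤ 2 * K := by exact_mod_cast h2
    constructor
    · rw [hy]
      exact div_le_div_of_nonneg_right h1' hN0.le
    · rw [hy, ← mul_div_assoc]
      exact div_le_div_of_nonneg_right h2' hN0.le
  have hHB : ∀ m : ℕ, K ≤ m → m ≤ 2 * K → H ((m : ℝ) / N) ≤ Bd y := fun m h1 h2 =>
    H_le hy0 (hrange m h1 h2).1 (hrange m h1 h2).2
  have hHpos : ∀ m : ℕ, K ≤ m → 0 < H ((m : ℝ) / N) := by
    intro m h1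
    apply H_pos
    have : 0 < m := lt_of_lt_of_le hKpos h1
    positivity
  set D : ℝ := Bd y * ((1 / N) * (3 / (2 * y) + Real.pi + Real.pi / y ^ 2))
    + Bd y * (2 * Real.pi / K) with hD
  have hterm : ∀ m ∈ Finset.Ico K (2 * K - 1),
      ‖((H (((m + 1 : ℕ) : ℝ) / N) : ℝ) : ℂ) * e (-(c / ((m + 1 : ℕ) : ℝ)))
        - ((H ((m : ℝ) / N) : ℝ) : ℂ) * e (-(c / m))‖ ≤ D := by
    intro m hm
    rw [Finset.mem_Ico] at hm
    have hm1 : K ≤ m := hm.1
    have hm2 : m + 1 ≤ 2 * K := by omega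
    have hm0 : 0 < m := lt_of_lt_of_le hKpos hm1
    have hmr : (K : ℝ) ≤ (m : ℝ) := by exact_mod_cast hm1
    have e1 : ((H (((m + 1 : ℕ) : ℝ) / N) : ℝ) : ℂ) * e (-(c / ((m + 1 : ℕ) : ℝ)))
        - ((H ((m : ℝ) / N) : ℝ) : ℂ) * e (-(c / m))
        = ((H (((m + 1 : ℕ) : ℝ) / N) - H ((m : ℝ) / N) : ℝ) : ℂ) * e (-(c / ((m + 1 : ℕ) : ℝ)))
          + ((H ((m : ℝ) / N) : ℝ) : ℂ) * (e (-(c / ((m + 1 : ℕ) : ℝ))) - e (-(c / m))) := by
      push_cast
      ring
    rw [e1]
    refine (norm_add_le _ _).trans ?_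
    rw [norm_mul, norm_mul, norm_e, mul_one, Complex.norm_real, Complex.norm_real,
      Real.norm_eq_abs, Real.norm_eq_abs, hD]
    refine add_le_add ?_ ?_
    · have h3 := H_sub (B := Bd y) hy0 (hrange m hm1 (by omega)).1
        (w := ((m + 1 : ℕ) : ℝ) / N)
        (by
          apply div_le_div_of_nonneg_right _ hN0.le
          push_cast
          linarith)
        (hHB m hm1 (by omega)) (hHB (m + 1) (by omega) hm2)
      have h4 : ((m + 1 : ℕ) : ℝ) / N - (m : ℝ) / N = 1 / N := by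
        push_cast
        field_simp
        ring
      rw [h4] at h3
      exact h3
    · rw [abs_of_pos (hHpos m hm1)]
      have h5 := norm_e_sub (-(c / ((m + 1 : ℕ) : ℝ))) (-(c / m))
      have h6 : |-(c / ((m + 1 : ℕ) : ℝ)) - -(c / m)| ≤ 1 / K := by
        have hm0r : (0 : ℝ) < m := by exact_mod_cast hm0
        have h7 : -(c / ((m + 1 : ℕ) : ℝ)) - -(c / m) = c / (m * (m + 1)) := by
          push_cast
          field_simp
          ring
        rw [h7, abs_of_nonneg (by positivity)]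
        refine (div_le_div_of_nonneg_right hc1 (by positivity)).trans ?_
        apply one_div_le_one_div_of_le (by positivity)
        nlinarith
      refine mul_le_mul (hHB m hm1 (by omega)) ?_ (norm_nonneg _) (Bd_pos hy0).le
      refine h5.trans ?_
      have h8 : 2 * Real.pi / (K : ℝ) = 2 * Real.pi * (1 / K) := by ring
      rw [h8]
      exact mul_le_mul_of_nonneg_left h6 (by positivity)
  have hBV : BVn (fun m => ((H ((m : ℝ) / N) : ℝ) : ℂ) * e (-(c / m))) j
      ≤ Bd y + (K : ℝ) * D := by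
    unfold BVn
    rw [← hK, h2K]
    refine add_le_add ?_ ?_
    · have h9 : K ≤ 2 * K - 1 := by omega
      simp only [norm_mul, norm_e, mul_one, Complex.norm_real, Real.norm_eq_abs]
      rw [abs_of_pos (hHpos (2 * K - 1) h9)]
      exact hHB (2 * K - 1) h9 (by omega)
    · refine (Finset.sum_le_sum hterm).trans ?_
      rw [Finset.sum_const, nsmul_eq_mul, Nat.card_Ico]
      have hD0 : 0 ≤ D := by
        have := Bd_pos hy0
        positivity
      apply mul_le_mul_of_nonneg_right _ hD0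
      exact_mod_cast (by omega : 2 * K - 1 - K ≤ K)
  refine hBV.trans ?_
  have h10 : Bd y + (K : ℝ) * D
      = Bd y * (1 + (3 / 2 + Real.pi * y + Real.pi / y + 2 * Real.pi)) := by
    rw [hD, hy]
    field_simp
  rw [h10]
  have h11 := final_bound hy0
  have h12 : -((2 : ℝ) ^ j / N + N / (2 : ℝ) ^ j) = -(y + 1 / y) := by
    rw [hy, hKr, one_div_div]
  rw [h12]
  exact h11

end Pool.Agent.Lib.MP_3ee548_nt.RS.H14
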