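import Pool.Agent.Lib.MP_3ee548_nt.RS.Iface

/-!
# Module PCRED (MP_3ee548_nt, RS board): reduction of r + 2 summands to 2 summands.
-/

set_option autoImplicit false

open scoped BigOperators
open Classical

namespace Pool.Agent.Lib.MP_3ee548_nt.RS.H14

open Pool.Agent.Lib.MP_3ee548_nt.RS

theorem card_I_le (n : ℕ) : (I n).card ≤ n := by
  unfold I
  refine (Finset.card_filter_le _ _).trans ?_
  simp

theorem sig_succ (k : ℕ) (x : Fin (k + 1) → ℕ) :
    sig (k + 1) x = Real.sqrt (x 0) + sig k (fun i => x i.succ) := by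
  unfold sig
  rw [Fin.sum_univ_succ]

theorem step (h1 : ShiftStatement) (k n : ℕ) (T : ℝ) (hT : 0 < T) :
    PC (sig (k + 1)) (IV (k + 1) n) T ≤ (4 * (n : ℝ) ^ 2) * PC (sig k) (IV k n) T := by
  set S := ((IV (k + 1) n ×ˢ IV (k + 1) n).filter
    (fun p : (Fin (k + 1) → ℕ) × (Fin (k + 1) → ℕ) =>
      |sig (k + 1) p.1 - sig (k + 1) p.2| ≤ 1 / T)) with hS
  have hmap : ∀ p ∈ S, (p.1 0, p.2 0) ∈ I n ×ˢ I n := by
    intro p hp
    rw [hS, Finset.mem_filter, Finset.mem_product] at hp
    obtain ⟨⟨ha, hb⟩, -⟩ := hp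
    unfold IV at ha hb
    rw [Fintype.mem_piFinset] at ha hb
    exact Finset.mem_product.2 ⟨ha 0, hb 0⟩
  have hcard := Finset.card_eq_sum_card_fiberwise (s := S) (t := I n ×ˢ I n)
    (f := fun p => (p.1 0, p.2 0)) hmap
  have hfib : ∀ q ∈ I n ×ˢ I n,
      ((S.filter (fun p => (p.1 0, p.2 0) = q)).card : ℝ) ≤ 4 * PC (sig k) (IV k n) T := by
    intro q _
    have h2 : (S.filter (fun p => (p.1 0, p.2 0) = q)).card ≤
        ((IV k n ×ˢ IV k n).filter (fun p : (Fin k → ℕ) × (Fin k → ℕ) =>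
          |sig k p.1 - sig k p.2 - (Real.sqrt q.2 - Real.sqrt q.1)| ≤ 1 / T)).card := by
      refine Finset.card_le_card_of_injOn
        (fun p => ((fun i => p.1 i.succ), (fun i => p.2 i.succ))) ?_ ?_
      · intro p hp
        have hp' := Finset.mem_filter.1 (Finset.mem_coe.1 hp)
        obtain ⟨hpS, hq⟩ := hp'
        rw [hS, Finset.mem_filter, Finset.mem_product] at hpS
        obtain ⟨⟨ha, hb⟩, hc⟩ := hpS
        unfold IV at ha hb
        rw [Fintype.mem_piFinset] at ha hb
        refine Finset.mem_coe.2 (Finset.mem_filter.2 ⟨Finset.mem_product.2 ⟨?_, ?_⟩, ?_⟩)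
        · unfold IV
          rw [Fintype.mem_piFinset]
          exact fun i => ha i.succ
        · unfold IV
          rw [Fintype.mem_piFinset]
          exact fun i => hb i.succ
        · rw [sig_succ, sig_succ] at hc
          have e1 : p.1 0 = q.1 := congrArg Prod.fst hq
          have e2 : p.2 0 = q.2 := congrArg Prod.snd hq
          rw [e1, e2] at hc
          refine le_trans (le_of_eq ?_) hc
          congr 1
          ring
      · intro p hp p' hp' heq
        have h3 := (Finset.mem_filter.1 (Finset.mem_coe.1 hp)).2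
        have h4 := (Finset.mem_filter.1 (Finset.mem_coe.1 hp')).2
        have h5 : (p.1 0, p.2 0) = (p'.1 0, p'.2 0) := h3.trans h4.symm
        have e1 : p.1 0 = p'.1 0 := congrArg Prod.fst h5
        have e2 : p.2 0 = p'.2 0 := congrArg Prod.snd h5
        have f1 : (fun i : Fin k => p.1 i.succ) = (fun i : Fin k => p'.1 i.succ) :=
          congrArg Prod.fst heq
        have f2 : (fun i : Fin k => p.2 i.succ) = (fun i : Fin k => p'.2 i.succ) :=
          congrArg Prod.snd heq
        refine Prod.ext ?_ ?_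
        · funext i
          refine Fin.cases e1 (fun j => congrFun f1 j) i
        · funext i
          refine Fin.cases e2 (fun j => congrFun f2 j) i
    have h3 := h1 (Fin k → ℕ) (sig k) (IV k n) T (Real.sqrt q.2 - Real.sqrt q.1) hT
    unfold PCz at h3
    refine le_trans ?_ h3
    exact_mod_cast h2
  have hnn : 0 ≤ PC (sig k) (IV k n) T := by
    unfold PC
    positivity
  have h6 : ((I n ×ˢ I n).card : ℝ) ≤ (n : ℝ) ^ 2 := by
    rw [Finset.card_product]
    have h7 : (((I n).card : ℕ) : ℝ) ≤ (n : ℝ) := by exact_mod_cast card_I_le n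
    push_cast
    nlinarith [Nat.cast_nonneg (α := ℝ) (I n).card, Nat.cast_nonneg (α := ℝ) n]
  have hPC : PC (sig (k + 1)) (IV (k + 1) n) T = (S.card : ℝ) := rfl
  rw [hPC, hcard]
  push_cast
  calc ∑ q ∈ I n ×ˢ I n, ((S.filter (fun p => (p.1 0, p.2 0) = q)).card : ℝ)
      ≤ ∑ _q ∈ I n ×ˢ I n, 4 * PC (sig k) (IV k n) T := Finset.sum_le_sum hfib
    _ = ((I n ×ˢ I n).card : ℝ) * (4 * PC (sig k) (IV k n) T) := by
        rw [Finset.sum_const, nsmul_eq_mul]
    _ ≤ (n : ℝ) ^ 2 * (4 * PC (sig k) (IV k n) T) := by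
        exact mul_le_mul_of_nonneg_right h6 (by positivity)
    _ = (4 * (n : ℝ) ^ 2) * PC (sig k) (IV k n) T := by ring

theorem pcred (h1 : ShiftStatement) : PcredStatement := by
  intro r n T _ hT
  induction r with
  | zero => simp
  | succ r ih =>
    have h := step h1 (r + 2) n T hT
    calc PC (sig (r + 1 + 2)) (IV (r + 1 + 2) n) T
        ≤ (4 * (n : ℝ) ^ 2) * PC (sig (r + 2)) (IV (r + 2) n) T := h
      _ ≤ (4 * (n : ℝ) ^ 2) * ((4 * (n : ℝ) ^ 2) ^ r * PC (sig 2) (IV 2 n) T) := by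
          exact mul_le_mul_of_nonneg_left ih (by positivity)
      _ = (4 * (n : ℝ) ^ 2) ^ (r + 1) * PC (sig 2) (IV 2 n) T := by ring

end Pool.Agent.Lib.MP_3ee548_nt.RS.H14
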